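import Pool.Agent.Helper3.WT.Defs

/-!
WT-C1: the parameters.
-/

set_option autoImplicit false

namespace Pool.Agent.Helper85.WT

open Finset Filter
open Pool.Agent.Helper48.ET
open Pool.Agent.Helper3.WT

/-- the constant `C` for the parameter `s` -/
def Cs (s : ℕ) : ℕ := 2 ^ (s ^ 2 + 3)

/-- threshold -/
noncomputable def Th (s : ℕ) : ℕ :=
  100 + s ^ 2 * (1 + 2 * Nat.clog 2 (N0 (Cs s))) + (2 * Del (Cs s) + 1)

/-- the parameter for the size `m` -/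
noncomputable def Sp (m : ℕ) : ℕ := by
  classical
  exact Nat.findGreatest (fun s => Th s ≤ m) m

theorem Sp_spec {m : ℕ} (h : Th 1 ≤ m) : 1 ≤ Sp m ∧ Th (Sp m) ≤ m := by
  classical
  have h1 : 1 ≤ m := le_trans (by unfold Th; omega) h
  refine ⟨?_, ?_⟩
  · exact Nat.le_findGreatest (P := fun s => Th s ≤ m) h1 h
  · exact Nat.findGreatest_spec (P := fun s => Th s ≤ m) h1 h

theorem le_Sp {m s : ℕ} (h1 : s ≤ m) (h2 : Th s ≤ m) : s ≤ Sp m := by
  classical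
  exact Nat.le_findGreatest (P := fun s => Th s ≤ m) h1 h2

/-- the exponents -/
noncomputable def nn : ℕ → ℕ
  | 0 => Th 1
  | k + 1 => nn k + nn k / Sp (nn k) + 1

theorem nn_succ (k : ℕ) : nn (k + 1) = nn k + nn k / Sp (nn k) + 1 := rfl

theorem nn_lt (k : ℕ) : nn k < nn (k + 1) := by
  rw [nn_succ]; exact Nat.lt_succ_of_le (Nat.le_add_right _ _)

theorem Th_le_nn (k : ℕ) : Th 1 ≤ nn k := by
  induction k with
  | zero => exact le_rfl
  | succ k ih => exact ih.trans (nn_lt k).le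

theorem le_nn (k : ℕ) : k ≤ nn k := by
  induction k with
  | zero => exact Nat.zero_le _
  | succ k ih => exact Nat.succ_le_of_lt (lt_of_le_of_lt ih (nn_lt k))

theorem nn_ge (k : ℕ) : 100 ≤ nn k := le_trans (by unfold Th; omega) (Th_le_nn k)

theorem nn_succ_le (k : ℕ) : nn (k + 1) ≤ 2 * nn k + 1 := by
  rw [nn_succ]
  have := Nat.div_le_self (nn k) (Sp (nn k))
  omega

theorem tendsto_nn : Tendsto nn atTop atTop := tendsto_atTop_mono le_nn tendsto_id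

theorem tendsto_Sp : Tendsto Sp atTop atTop := by
  rw [tendsto_atTop]
  intro s
  filter_upwards [eventually_ge_atTop (max s (Th s))] with m hm
  exact le_Sp ((le_max_left _ _).trans hm) ((le_max_right _ _).trans hm)

theorem tendsto_ss : Tendsto (fun k => Sp (nn k)) atTop atTop := tendsto_Sp.comp tendsto_nn

theorem nn_P0 (k : ℕ) : P0 (Cs (Sp (nn k))) (2 ^ nn (k + 1)) < 2 ^ 2 ^ nn k := by
  have h1 := (Sp_spec (Th_le_nn k)).2
  have h2 : 2 * Del (Cs (Sp (nn k))) + 1 ≤ nn k := le_trans (by unfold Th; omega) h1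
  have h3 := nn_succ_le k
  have h4 : nn k < 2 ^ nn k := Nat.lt_two_pow_self
  have h5 := nn_ge k
  set a := nn k with ha
  unfold P0
  have h6 : (2 : ℕ) ^ nn (k + 1) ≤ 2 ^ (2 * a + 1) := Nat.pow_le_pow_right (by norm_num) h3
  have h7 : 2 ^ nn (k + 1) * (2 * Del (Cs (Sp a)) + 1) ≤ 2 ^ (2 * a + 1) * 2 ^ a :=
    Nat.mul_le_mul h6 (h2.trans h4.le)
  have h8 : (2 : ℕ) ^ (2 * a + 1) * 2 ^ a = 2 ^ (3 * a + 1) := by
    rw [← pow_add]; congr 1; omega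
  have h9 : 2 < (2 : ℕ) ^ (3 * a + 1) := by
    calc (2 : ℕ) = 2 ^ 1 := by norm_num
      _ < 2 ^ (3 * a + 1) := Nat.pow_lt_pow_right (by norm_num) (by omega)
  have h10 : (2 : ℕ) ^ (3 * a + 1) + 2 ^ (3 * a + 1) = 2 ^ (3 * a + 2) := by
    rw [← two_mul, ← pow_succ']
  have h11 : 3 * a + 2 < 2 ^ a := by
    have : ∀ m : ℕ, 5 ≤ m → 3 * m + 2 < 2 ^ m := by
      intro m hm
      induction m, hm using Nat.le_induction with
      | base => norm_num
      | succ m hm ih => rw [pow_succ]; omega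
    exact this a (by omega)
  have h12 : (2 : ℕ) ^ (3 * a + 2) < 2 ^ 2 ^ a := Nat.pow_lt_pow_right (by norm_num) h11
  omega

theorem nn_ratio (k : ℕ) :
    (nn (k + 1) : ℝ) ≤ nn k * (1 + 1 / (Sp (nn k) : ℝ) + 1 / (nn k : ℝ)) := by
  have h1 : (0 : ℝ) < nn k := by
    have := nn_ge k
    exact_mod_cast (by omega : 0 < nn k)
  have h2 : (((nn k / Sp (nn k) : ℕ)) : ℝ) ≤ (nn k : ℝ) / (Sp (nn k) : ℝ) := Nat.cast_div_le
  rw [nn_succ]
  push_cast
  have h3 : (nn k : ℝ) * (1 + 1 / (Sp (nn k) : ℝ) + 1 / (nn k : ℝ)) =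
      nn k + (nn k : ℝ) / (Sp (nn k) : ℝ) + 1 := by
    field_simp
  rw [h3]
  linarith

theorem nn_ev (e : ℝ) (he : 0 < e) : ∀ᶠ k in atTop, (nn (k + 1) : ℝ) ≤ (1 + e) * nn k := by
  have h1 : Tendsto (fun k => 1 / (Sp (nn k) : ℝ)) atTop (nhds 0) :=
    tendsto_one_div_atTop_nhds_zero_nat.comp tendsto_ss
  have h2 : Tendsto (fun k => 1 / (nn k : ℝ)) atTop (nhds 0) :=
    tendsto_one_div_atTop_nhds_zero_nat.comp tendsto_nn
  filter_upwards [h1.eventually_lt_const (half_pos he), h2.eventually_lt_const (half_pos he)]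
    with k hk1 hk2
  refine (nn_ratio k).trans ?_
  rw [mul_comm]
  exact mul_le_mul_of_nonneg_right (by linarith) (Nat.cast_nonneg _)

/-- the logarithm of the multiplicity -/
noncomputable def gl (j : ℕ) : ℝ := Real.logb 2 (GG (Cs (Sp (nn j))) (2 ^ nn (j + 1)) : ℝ)

theorem gl_nonneg (j : ℕ) : 0 ≤ gl j := by
  unfold gl
  rcases Nat.eq_zero_or_pos (GG (Cs (Sp (nn j))) (2 ^ nn (j + 1))) with h | h
  · rw [h]; simp
  · exact Real.logb_nonneg (by norm_num) (by exact_mod_cast h)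

theorem logb_GG_le (s m : ℕ) :
    Real.logb 2 (GG (Cs s) (2 ^ m) : ℝ) ≤
      ((m / (s ^ 2 + 3) : ℕ) : ℝ) + 1 + 2 * (Nat.clog 2 (N0 (Cs s)) : ℝ) := by
  have h1 : Nat.log (Cs s) (2 ^ m) ≤ m / (s ^ 2 + 3) := by
    unfold Cs
    rw [Nat.le_div_iff_mul_le (by positivity)]
    by_contra h
    push Not at h
    have h2 : (2 ^ (s ^ 2 + 3)) ^ Nat.log (2 ^ (s ^ 2 + 3)) (2 ^ m) ≤ 2 ^ m :=
      Nat.pow_log_le_self _ (by positivity)
    rw [← pow_mul, mul_comm] at h2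
    exact absurd h2 (not_le.2 (Nat.pow_lt_pow_right (by norm_num) h))
  have h3 : N0 (Cs s) ≤ 2 ^ Nat.clog 2 (N0 (Cs s)) := Nat.le_pow_clog (by norm_num) _
  have h4 : GG (Cs s) (2 ^ m) ≤
      2 ^ (m / (s ^ 2 + 3) + 1 + 2 * Nat.clog 2 (N0 (Cs s))) := by
    unfold GG
    rw [pow_add (2 : ℕ) (m / (s ^ 2 + 3) + 1) (2 * Nat.clog 2 (N0 (Cs s))), mul_comm 2 (Nat.clog _ _),
      pow_mul]
    exact Nat.mul_le_mul (Nat.pow_le_pow_right (by norm_num) (by omega))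
      (Nat.pow_le_pow_left h3 2)
  rcases Nat.eq_zero_or_pos (GG (Cs s) (2 ^ m)) with h | h
  · rw [h]; simp only [Nat.cast_zero, Real.logb_zero]; positivity
  · have h5 : (GG (Cs s) (2 ^ m) : ℝ) ≤
        (2 : ℝ) ^ (m / (s ^ 2 + 3) + 1 + 2 * Nat.clog 2 (N0 (Cs s))) := by exact_mod_cast h4
    have h6 := Real.logb_le_logb_of_le (b := 2) (by norm_num) (by exact_mod_cast h) h5
    refine h6.trans (le_of_eq ?_)
    rw [Real.logb_pow, Real.logb_self_eq_one (by norm_num), mul_one]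
    push_cast
    ring

theorem gl_le (j : ℕ) :
    gl j ≤ 4 / (Sp (nn j) : ℝ) * ((nn (j + 1) : ℝ) - nn j) := by
  obtain ⟨h1, h2⟩ := Sp_spec (Th_le_nn j)
  have h3 := logb_GG_le (Sp (nn j)) (nn (j + 1))
  have h4 := nn_succ_le j
  have h5 := nn_ge j
  set s := Sp (nn j) with hs
  have hs0 : (0 : ℝ) < s := by exact_mod_cast h1
  have h6 : (((nn (j + 1) / (s ^ 2 + 3) : ℕ)) : ℝ) ≤ (3 * nn j : ℝ) / (s : ℝ) ^ 2 := by
    refine Nat.cast_div_le.trans ?_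
    have h7 : (nn (j + 1) : ℝ) ≤ 3 * nn j := by
      exact_mod_cast (by omega : nn (j + 1) ≤ 3 * nn j)
    push_cast
    refine div_le_div₀ (by positivity) h7 (by positivity) (by linarith)
  have h8 : (1 + 2 * (Nat.clog 2 (N0 (Cs s)) : ℝ)) ≤ (nn j : ℝ) / (s : ℝ) ^ 2 := by
    rw [le_div_iff₀ (by positivity)]
    have : s ^ 2 * (1 + 2 * Nat.clog 2 (N0 (Cs s))) ≤ nn j := le_trans (by unfold Th; omega) h2
    have h9 : ((s : ℝ) ^ 2 * (1 + 2 * (Nat.clog 2 (N0 (Cs s)) : ℝ))) ≤ nn j := by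
      exact_mod_cast this
    linarith
  have h10 : (nn j : ℝ) / s ≤ (nn (j + 1) : ℝ) - nn j := by
    rw [nn_succ, ← hs]
    push_cast
    have h11 : (nn j : ℝ) < s * ((nn j / s : ℕ) + 1 : ℝ) := by
      have := Nat.lt_mul_div_succ (nn j) h1
      exact_mod_cast this
    rw [div_le_iff₀ hs0]
    nlinarith
  have h12 : gl j ≤ (3 * nn j : ℝ) / (s : ℝ) ^ 2 + (nn j : ℝ) / (s : ℝ) ^ 2 := by
    unfold gl
    rw [← hs]
    linarith
  refine h12.trans ?_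
  have h13 : (3 * nn j : ℝ) / (s : ℝ) ^ 2 + (nn j : ℝ) / (s : ℝ) ^ 2 =
      4 / (s : ℝ) * ((nn j : ℝ) / s) := by
    field_simp
    ring
  rw [h13]
  exact mul_le_mul_of_nonneg_left h10 (by positivity)

theorem gl_isLittleO : (gl : ℕ → ℝ) =o[atTop] fun j => ((nn (j + 1) : ℝ) - nn j) := by
  rw [Asymptotics.isLittleO_iff]
  intro c hc
  have h1 : Tendsto (fun k => 1 / (Sp (nn k) : ℝ)) atTop (nhds 0) :=
    tendsto_one_div_atTop_nhds_zero_nat.comp tendsto_ss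
  filter_upwards [h1.eventually_lt_const (show 0 < c / 4 by positivity)] with j hj
  have h2 : (0 : ℝ) ≤ (nn (j + 1) : ℝ) - nn j := by
    have : (nn j : ℝ) ≤ nn (j + 1) := by exact_mod_cast (nn_lt j).le
    linarith
  rw [Real.norm_of_nonneg (gl_nonneg j), Real.norm_of_nonneg h2]
  refine (gl_le j).trans (mul_le_mul_of_nonneg_right ?_ h2)
  have : (4 : ℝ) / (Sp (nn j) : ℝ) = 4 * (1 / (Sp (nn j) : ℝ)) := by ring
  rw [this]
  linarith

theorem sum_nn (k : ℕ) : ∑ j ∈ range k, ((nn (j + 1) : ℝ) - nn j) = nn k - nn 0 :=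
  Finset.sum_range_sub (fun j => (nn j : ℝ)) k

theorem sum_ev (e : ℝ) (he : 0 < e) :
    ∀ᶠ k in atTop, ∑ j ∈ range (k + 1), gl j ≤ e * nn k := by
  have h1 : Tendsto (fun k => ∑ j ∈ range k, ((nn (j + 1) : ℝ) - nn j)) atTop atTop := by
    simp_rw [sum_nn]
    exact tendsto_atTop_add_const_right _ _ (tendsto_natCast_atTop_atTop.comp tendsto_nn)
  have h2 := gl_isLittleO.sum_range
    (fun j => by
      have : (nn j : ℝ) ≤ nn (j + 1) := by exact_mod_cast (nn_lt j).le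
      show (0 : ℝ) ≤ (nn (j + 1) : ℝ) - nn j
      linarith) h1
  rw [Asymptotics.isLittleO_iff] at h2
  have h3 := h2 (show 0 < e / 3 by positivity)
  have h4 : Tendsto (fun k : ℕ => k + 1) atTop atTop := tendsto_add_atTop_nat 1
  filter_upwards [h4.eventually h3] with k hk
  rw [sum_nn] at hk
  have h5 : (0 : ℝ) ≤ ∑ j ∈ range (k + 1), gl j := sum_nonneg fun j _ => gl_nonneg j
  rw [Real.norm_of_nonneg h5] at hk
  have h6 : (nn (k + 1) : ℝ) ≤ 3 * nn k := by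
    have := nn_succ_le k
    have := nn_ge k
    exact_mod_cast (by omega : nn (k + 1) ≤ 3 * nn k)
  have h7 : ‖((nn (k + 1) : ℝ)) - nn 0‖ ≤ 3 * nn k := by
    rw [Real.norm_eq_abs, abs_le]
    have h8 : (nn 0 : ℝ) ≤ nn (k + 1) := by
      have : nn 0 ≤ nn (k + 1) := (strictMono_nat_of_lt_succ nn_lt).monotone (Nat.zero_le _)
      exact_mod_cast this
    have h9 : (0 : ℝ) ≤ nn 0 := Nat.cast_nonneg _
    have h10 : (0 : ℝ) ≤ nn k := Nat.cast_nonneg _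
    constructor <;> linarith
  refine hk.trans ?_
  calc e / 3 * ‖((nn (k + 1) : ℝ)) - nn 0‖ ≤ e / 3 * (3 * nn k) :=
        mul_le_mul_of_nonneg_left h7 (by positivity)
    _ = e * nn k := by ring

/-- WT-C1: the parameters -/
theorem params : ∃ n C : ℕ → ℕ, (∀ k, 8 ≤ C k) ∧ (∀ k, Even (C k)) ∧ (∀ k, n k < n (k + 1)) ∧
    (∀ k, P0 (C k) (2 ^ n (k + 1)) < 2 ^ 2 ^ n k) ∧
    (∀ e : ℝ, 0 < e → ∀ᶠ k in atTop, (n (k + 1) : ℝ) ≤ (1 + e) * n k) ∧
    (∀ e : ℝ, 0 < e → ∀ᶠ k in atTop,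
      ∑ j ∈ range (k + 1), Real.logb 2 (GG (C j) (2 ^ n (j + 1)) : ℝ) ≤ e * n k) := by
  refine ⟨nn, fun k => Cs (Sp (nn k)), ?_, ?_, nn_lt, nn_P0, nn_ev, sum_ev⟩
  · intro k
    show 8 ≤ 2 ^ (Sp (nn k) ^ 2 + 3)
    calc 8 = 2 ^ 3 := by norm_num
      _ ≤ 2 ^ (Sp (nn k) ^ 2 + 3) := Nat.pow_le_pow_right (by norm_num) (by omega)
  · intro k
    show Even (2 ^ (Sp (nn k) ^ 2 + 3))
    exact Even.pow_of_ne_zero even_two (by omega)

end Pool.Agent.Helper85.WT
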